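import Pool.Agent.Helper26.GB.CutCondition
import Pool.Agent.Helper89.GB.CutEquidec
import Pool.Agent.Helper88.GB.A11

/-!
# MP_02f2ca_gt, module A12: the two bodies are equidecomposable with arbitrary pieces
-/

open Set MeasureTheory Filter Topology

namespace GB

namespace A12

theorem per_add_int {A : Set ℝ} (hA : Per A) (x : ℝ) (m : ℤ) : x + m ∈ A ↔ x ∈ A := by
  induction m using Int.induction_on with
  | zero => simp
  | succ n ih =>
    rw [← ih, ← hA (x + (n : ℤ))]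
    push_cast
    rw [add_assoc]
  | pred n ih =>
    rw [← ih, ← hA (x + ((-(n : ℤ) - 1 : ℤ) : ℝ))]
    push_cast
    rw [add_assoc, sub_add_cancel]

theorem mem_image {A : Set ℝ} (hA : Per A) (x : ℝ) :
    (x : AddCircle (1 : ℝ)) ∈ (((↑) : ℝ → AddCircle (1 : ℝ)) '' A) ↔ x ∈ A := by
  constructor
  · rintro ⟨a, ha, h⟩
    have h1 : ((a - x : ℝ) : AddCircle (1 : ℝ)) = 0 := by
      rw [AddCircle.coe_sub, h, sub_self]
    rw [AddCircle.coe_eq_zero_iff] at h1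
    obtain ⟨n, hn⟩ := h1
    rw [zsmul_one] at hn
    have h2 : a = x + n := by linarith
    rw [h2] at ha
    exact (per_add_int hA x n).1 ha
  · intro h
    exact ⟨x, h, rfl⟩

theorem cob_add_int {a₁ : ℝ} {G : Set ℝ} (hG : Per G) (x : ℝ) (m : ℤ) :
    cob a₁ G (x + m) = cob a₁ G x := by
  have h1 := per_add_int hG x m
  have h2 := per_add_int hG (x + a₁) m
  have h3 : x + m + a₁ = x + a₁ + m := by ring
  unfold cob
  rw [h3]
  by_cases ha : x ∈ G <;> by_cases hb : x + a₁ ∈ G <;>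
    simp [Set.indicator, h1, h2, ha, hb]

theorem cob_cases (a₁ : ℝ) (G : Set ℝ) (x : ℝ) :
    cob a₁ G x = 0 ∨ cob a₁ G x = 1 ∨ cob a₁ G x = -1 := by
  unfold cob
  by_cases ha : x ∈ G <;> by_cases hb : x + a₁ ∈ G <;> simp [Set.indicator, ha, hb]

theorem coe_Lf (a₁ a₂ : ℝ) (v : ℤ × ℤ) :
    iota a₁ a₂ v = ((Lf a₁ a₂ v : ℝ) : AddCircle (1 : ℝ)) := rfl

theorem iota_inj {a₁ a₂ : ℝ} (hα : QIndep a₁ a₂) : Function.Injective (iota a₁ a₂) := by
  rw [injective_iff_map_eq_zero]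
  intro v hv
  rw [coe_Lf, AddCircle.coe_eq_zero_iff] at hv
  obtain ⟨n, hn⟩ := hv
  rw [zsmul_one] at hn
  exact hα v n hn.symm

/-- The coboundary on the circle. -/
noncomputable def fc (a₁ a₂ : ℝ) (G : Set ℝ) (g : AddCircle (1 : ℝ)) : ℤ :=
  ((((↑) : ℝ → AddCircle (1 : ℝ)) '' G)).indicator (fun _ => (1 : ℤ)) g
    - ((((↑) : ℝ → AddCircle (1 : ℝ)) '' G)).indicator (fun _ => (1 : ℤ)) (g + iota a₁ a₂ (1, 0))

theorem fc_coe (a₁ a₂ : ℝ) {G : Set ℝ} (hG : Per G) (x : ℝ) :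
    fc a₁ a₂ G (x : AddCircle (1 : ℝ)) = cob a₁ G x := by
  have e : (x : AddCircle (1 : ℝ)) + iota a₁ a₂ (1, 0) = ((x + a₁ : ℝ) : AddCircle (1 : ℝ)) := by
    rw [coe_Lf, ← AddCircle.coe_add]
    congr 1
    simp [Lf]
  unfold fc cob
  rw [e]
  have h1 := mem_image hG x
  have h2 := mem_image hG (x + a₁)
  by_cases ha : x ∈ G <;> by_cases hb : x + a₁ ∈ G
  · rw [Set.indicator_of_mem (h1.2 ha), Set.indicator_of_mem (h2.2 hb),
      Set.indicator_of_mem ha, Set.indicator_of_mem hb]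
  · rw [Set.indicator_of_mem (h1.2 ha), Set.indicator_of_notMem (fun h => hb (h2.1 h)),
      Set.indicator_of_mem ha, Set.indicator_of_notMem hb]
  · rw [Set.indicator_of_notMem (fun h => ha (h1.1 h)), Set.indicator_of_mem (h2.2 hb),
      Set.indicator_of_notMem ha, Set.indicator_of_mem hb]
  · rw [Set.indicator_of_notMem (fun h => ha (h1.1 h)),
      Set.indicator_of_notMem (fun h => hb (h2.1 h)),
      Set.indicator_of_notMem ha, Set.indicator_of_notMem hb]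

section

variable {a₁ a₂ : ℝ} {thr : ℕ → Set ℝ → ℕ} {thr2 : ℝ → ℕ}
    {κ : ℕ → ℕ → ℕ} {e : ℕ → ℝ} {μ₀ : ℝ} {X : ℕ → Lev} {ε : ℕ → ℝ} {θ : ℕ → ℕ}

theorem eps_le (h : Levels a₁ a₂ thr thr2 κ e μ₀ X ε θ) {i j : ℕ} (hij : i < j) :
    ε j ≤ (X i).ε' := by
  induction j with
  | zero => omega
  | succ j ih =>
    rw [h.εsucc j]
    rcases Nat.lt_or_ge i j with h1 | h1
    · have h2 := ih h1
      have h3 := (h.good j).ε'w
      have h4 := (h.good j).wε
      have h5 := (h.good j).wpos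
      linarith
    · have : i = j := by omega
      rw [this]

theorem eps_half (h : Levels a₁ a₂ thr thr2 κ e μ₀ X ε θ) (j : ℕ) : ε j ≤ 1 / 2 := by
  rcases Nat.eq_zero_or_pos j with h1 | h1
  · rw [h1, h.ε0]
  · have h2 := eps_le h h1
    have h3 := (h.good 0).ε'w
    have h4 := (h.good 0).wε
    have h5 := (h.good 0).wpos
    rw [h.ε0] at h4
    linarith

theorem supp (h : Levels a₁ a₂ thr thr2 κ e μ₀ X ε θ) {j : ℕ} {x : ℝ}
    (hx : cob a₁ (X j).G x ≠ 0) : ∃ u : ℤ, 0 < x + u ∧ x + u < ε j := by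
  obtain ⟨u, hu⟩ := (h.good j).supp x hx
  have h4 := (h.good j).wε
  have h5 := (h.good j).wpos
  exact ⟨u, by linarith [hu.1], by linarith [hu.2]⟩

/-- The function on the circle which counts the sources minus the sinks. -/
theorem sum_eq (h : Levels a₁ a₂ thr thr2 κ e μ₀ X ε θ) (g : AddCircle (1 : ℝ)) :
    ∃ n₀ : ℕ, ∀ n, n₀ ≤ n → ∑ i ∈ Finset.range n, fc a₁ a₂ (X i).G g =
      (((↑) : ℝ → AddCircle (1 : ℝ)) '' PM a₁ X 1).indicator (fun _ => (1 : ℤ)) g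
        - (((↑) : ℝ → AddCircle (1 : ℝ)) '' PM a₁ X (-1)).indicator (fun _ => (1 : ℤ)) g := by
  obtain ⟨y, rfl⟩ := QuotientAddGroup.mk_surjective g
  change ∃ n₀ : ℕ, ∀ n, n₀ ≤ n → ∑ i ∈ Finset.range n, fc a₁ a₂ (X i).G
      (y : AddCircle (1 : ℝ)) =
      (((↑) : ℝ → AddCircle (1 : ℝ)) '' PM a₁ X 1).indicator (fun _ => (1 : ℤ))
        (y : AddCircle (1 : ℝ))
        - (((↑) : ℝ → AddCircle (1 : ℝ)) '' PM a₁ X (-1)).indicator (fun _ => (1 : ℤ))
        (y : AddCircle (1 : ℝ))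
  have hG := fun i => (h.good i).Gper
  have key : ∀ σ : ℤ, σ ≠ 0 → ((y : AddCircle (1 : ℝ)) ∈
      (((↑) : ℝ → AddCircle (1 : ℝ)) '' PM a₁ X σ) ↔ ∃ i, cob a₁ (X i).G y = σ) := by
    intro σ hσ
    constructor
    · rintro ⟨x, ⟨hx, i, hi⟩, hxy⟩
      refine ⟨i, ?_⟩
      rw [← fc_coe a₁ a₂ (hG i) y, ← hxy, fc_coe a₁ a₂ (hG i) x, hi]
    · rintro ⟨i, hi⟩
      obtain ⟨u, hu1, hu2⟩ := supp h (j := i) (x := y) (by rw [hi]; exact hσ)
      have hε := eps_half h i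
      refine ⟨y + u, ⟨⟨hu1, by linarith⟩, i, ?_⟩, ?_⟩
      · rw [cob_add_int (hG i), hi]
      · rw [AddCircle.coe_add]
        have : ((u : ℝ) : AddCircle (1 : ℝ)) = 0 := by
          rw [AddCircle.coe_eq_zero_iff]
          exact ⟨u, by rw [zsmul_one]⟩
        rw [this, add_zero]
  simp only [fc_coe a₁ a₂ (hG _)]
  by_cases hex : ∃ i, cob a₁ (X i).G y ≠ 0
  · obtain ⟨i, hi⟩ := hex
    refine ⟨i + 1, fun n hn => ?_⟩
    have huniq : ∀ j, j ≠ i → cob a₁ (X j).G y = 0 := by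
      intro j hj
      by_contra hc
      exact hj (h.unique y j i hc hi)
    rw [Finset.sum_eq_single i (fun j _ hj => huniq j hj)
      (fun hni => absurd (Finset.mem_range.2 (by omega)) hni)]
    have hk : ∀ σ : ℤ, σ ≠ 0 → ((y : AddCircle (1 : ℝ)) ∈
        (((↑) : ℝ → AddCircle (1 : ℝ)) '' PM a₁ X σ) ↔ cob a₁ (X i).G y = σ) := by
      intro σ hσ
      rw [key σ hσ]
      constructor
      · rintro ⟨j, hj⟩
        have : j = i := by
          by_contra hji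
          rw [huniq j hji] at hj
          exact hσ hj.symm
        rw [← this, hj]
      · intro hh
        exact ⟨i, hh⟩
    rcases cob_cases a₁ (X i).G y with h0 | h0 | h0
    · exact absurd h0 hi
    · rw [Set.indicator_of_mem ((hk 1 one_ne_zero).2 h0), Set.indicator_of_notMem, h0]
      · simp
      · intro hc
        rw [hk (-1) (by norm_num), h0] at hc
        norm_num at hc
    · rw [Set.indicator_of_mem ((hk (-1) (by norm_num)).2 h0), Set.indicator_of_notMem, h0]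
      · simp
      · intro hc
        rw [hk 1 one_ne_zero, h0] at hc
        norm_num at hc
  · push Not at hex
    refine ⟨0, fun n _ => ?_⟩
    rw [Finset.sum_eq_zero fun j _ => hex j, Set.indicator_of_notMem,
      Set.indicator_of_notMem, sub_zero]
    · rw [key (-1) (by norm_num)]
      rintro ⟨i, hi⟩
      rw [hex i] at hi
      norm_num at hi
    · rw [key 1 one_ne_zero]
      rintro ⟨i, hi⟩
      rw [hex i] at hi
      norm_num at hi

end

end A12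

theorem body_equidec {a₁ a₂ : ℝ} (hα : QIndep a₁ a₂) {thr : ℕ → Set ℝ → ℕ} {thr2 : ℝ → ℕ}
    {κ : ℕ → ℕ → ℕ} {e : ℕ → ℝ} {μ₀ : ℝ} {X : ℕ → Lev} {ε : ℕ → ℝ} {θ : ℕ → ℕ}
    (h : Levels a₁ a₂ thr thr2 κ e μ₀ X ε θ) :
    EquidecArb (body a₁ X 1) (body a₁ X (-1)) := by
  classical
  refine equidec_of_cut a₁ a₂ hα _ _ (fun x hx => hx.1) (fun x hx => hx.1) ?_
  intro F
  have hn : ∃ n₀ : ℕ, ∀ n, n₀ ≤ n → ∀ g ∈ F, ∑ i ∈ Finset.range n, A12.fc a₁ a₂ (X i).G g =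
      (((↑) : ℝ → AddCircle (1 : ℝ)) '' PM a₁ X 1).indicator (fun _ => (1 : ℤ)) g
        - (((↑) : ℝ → AddCircle (1 : ℝ)) '' PM a₁ X (-1)).indicator (fun _ => (1 : ℤ)) g := by
    choose N hN using A12.sum_eq (a₂ := a₂) h
    refine ⟨F.sup N, fun n hn g hg => hN g n ?_⟩
    exact le_trans (Finset.le_sup hg) hn
  obtain ⟨n, hn⟩ := hn
  have h1 := hn n le_rfl
  rw [← Finset.sum_congr rfl h1]
  have hG := fun i => (h.good i).Gper
  have hZ := fun i => (h.good i).Zper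
  refine cut_condition (iota a₁ a₂) (A12.iota_inj hα) n
    (fun i => ((↑) : ℝ → AddCircle (1 : ℝ)) '' (X i).Z)
    (fun i => ((↑) : ℝ → AddCircle (1 : ℝ)) '' (X i).G)
    (fun i => (X i).H) (fun i => (X i).S) ?_ ?_ (fun i _ => (h.good i).hsize)
    (fun i => A12.fc a₁ a₂ (X i).G) (fun i _ x => rfl) ?_ F
  · rintro i - x ⟨y, hy, rfl⟩
    obtain ⟨z, hz, u, hu1, hu2, hu3, hu4⟩ := (h.good i).hGs y hy
    refine ⟨_, ⟨z, hz, rfl⟩, u, hu1, hu2, hu3, ?_⟩
    rw [A12.coe_Lf, ← AddCircle.coe_add, hu4]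
  · rintro i - x ⟨z, hz, rfl⟩ u hu0 hu hc
    rw [A12.coe_Lf, ← AddCircle.coe_add, A12.mem_image (hZ i)] at hc
    exact (h.good i).hsep z hz u hu0 hu hc
  · intro i _ j _ j' _ hij hij' g u hu hj hj'
    obtain ⟨y, rfl⟩ := QuotientAddGroup.mk_surjective g
    change A12.fc a₁ a₂ (X j).G (y : AddCircle (1 : ℝ)) ≠ 0 at hj
    change A12.fc a₁ a₂ (X j').G ((y : AddCircle (1 : ℝ)) + iota a₁ a₂ u) ≠ 0 at hj'
    rw [A12.fc_coe a₁ a₂ (hG j)] at hj
    rw [A12.coe_Lf, ← AddCircle.coe_add, A12.fc_coe a₁ a₂ (hG j')] at hj'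
    have hu0 : u = 0 := by
      by_contra hu0
      obtain ⟨m, hm1, hm2⟩ := A12.supp h hj
      obtain ⟨m', hm1', hm2'⟩ := A12.supp h hj'
      have e1 := A12.eps_le h hij
      have e2 := A12.eps_le h hij'
      have h3 := (h.good i).ε'S u hu0 hu (m - m')
      have h4 : |Lf a₁ a₂ u - ((m - m' : ℤ) : ℝ)| < (X i).ε' := by
        push_cast
        rw [abs_lt]
        constructor <;> linarith
      linarith
    refine ⟨hu0, ?_⟩
    subst hu0
    have e0 : Lf a₁ a₂ (0 : ℤ × ℤ) = 0 := by simp [Lf]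
    rw [e0, add_zero] at hj'
    exact h.unique y j j' hj hj'

end GB
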